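import Pool.Agent.W_MP_662637_nt.Eval

/-!
None of the six basins of the cubic digit-sum map in the class of one modulo three has a natural
density.
-/

namespace Pool.Agent.Results.MP_662637_nt.NoDensity

open Pool.Agent.W_MP_662637_nt Finset Filter

theorem windows (j : Fin 6) : ∃ T1 T2 : ℕ, 1 ≤ T1 ∧ 1 ≤ T2 ∧ T1 ^ 3 ≤ 10 ^ 12 ∧
    T2 ^ 3 ≤ 10 ^ 12 ∧ 1 / 120 < Wd (ib j) T1 12 - Wd (ib j) T2 12 := by
  have s11 : S3 11 = 2 := by norm_num [S3]
  have s88 : S3 88 = 1024 := by norm_num [S3]
  have s22 : S3 22 = 16 := by norm_num [S3]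
  have s99 : S3 99 = 1458 := by norm_num [S3]
  have s77 : S3 77 = 686 := by norm_num [S3]
  have s25 : S3 25 = 133 := by norm_num [S3]
  have s55 : S3 55 = 250 := by norm_num [S3]
  have s79 : S3 79 = 1072 := by norm_num [S3]
  obtain ⟨j, hj⟩ := j
  interval_cases j
  · exact ⟨11, 88, by norm_num, by norm_num, by norm_num, by norm_num,
      two_windows _ 11 88 2 1024 1 rfl s11 s88 (by norm_num) (by norm_num) (by norm_num)
        (by norm_num) check1⟩
  · exact ⟨22, 99, by norm_num, by norm_num, by norm_num, by norm_num,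
      two_windows _ 22 99 16 1458 2 rfl s22 s99 (by norm_num) (by norm_num) (by norm_num)
        (by norm_num) check2⟩
  · exact ⟨88, 77, by norm_num, by norm_num, by norm_num, by norm_num,
      two_windows _ 88 77 1024 686 3 rfl s88 s77 (by norm_num) (by norm_num) (by norm_num)
        (by norm_num) check3⟩
  · exact ⟨77, 25, by norm_num, by norm_num, by norm_num, by norm_num,
      two_windows _ 77 25 686 133 4 rfl s77 s25 (by norm_num) (by norm_num) (by norm_num)
        (by norm_num) check4⟩
  · exact ⟨99, 55, by norm_num, by norm_num, by norm_num, by norm_num,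
      two_windows _ 99 55 1458 250 5 rfl s99 s55 (by norm_num) (by norm_num) (by norm_num)
        (by norm_num) check5⟩
  · exact ⟨79, 22, by norm_num, by norm_num, by norm_num, by norm_num,
      two_windows _ 79 22 1072 16 6 rfl s79 s22 (by norm_num) (by norm_num) (by norm_num)
        (by norm_num) check6⟩

theorem mean_of_density (j : Fin 6) (d : ℝ) (h : HasDensity (basin j) d) : Mean (ib j) d := by
  classical
  have h0 : (0 : ℕ) ∉ basin j := fun h => absurd h.1 (by norm_num)
  have e : ∀ N : ℕ, ∑ n ∈ range (N + 1), ib j n = ((basin j ∩ Set.Icc 1 N).ncard : ℝ) := by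
    intro N
    have h1 : basin j ∩ Set.Icc 1 N = ((range (N + 1)).filter fun n => n ∈ basin j : Finset ℕ) := by
      ext n
      simp only [Set.mem_inter_iff, Set.mem_Icc, coe_filter, mem_range, Set.mem_ofPred_eq]
      constructor
      · rintro ⟨h1, h2, h3⟩; exact ⟨by omega, h1⟩
      · rintro ⟨h1, h2⟩
        exact ⟨h2, h2.1, by omega⟩
    rw [h1, Set.ncard_coe_finset, card_filter]
    push_cast
    refine sum_congr rfl fun n _ => ?_
    unfold ib
    by_cases hn : n ∈ basin j
    · simp [hn]
    · simp [hn]
  unfold Mean HasDensity at *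
  rw [← tendsto_add_atTop_iff_nat 1]
  have h2 : Tendsto (fun N : ℕ => (N : ℝ) / ((N + 1 : ℕ) : ℝ)) atTop (nhds 1) := by
    have := tendsto_natCast_div_add_atTop (1 : ℝ)
    simpa using this
  have h3 := h.mul h2
  rw [mul_one] at h3
  refine h3.congr' ?_
  filter_upwards [eventually_gt_atTop 0] with N hN
  have hN' : (N : ℝ) ≠ 0 := by exact_mod_cast hN.ne'
  rw [e]
  field_simp

/-- For each of the six limit sets in the class of one modulo three, the set of positive integers
whose orbit under the sum of the cubes of the decimal digits enters that limit set has no natural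
density. -/
theorem result : ∀ j : Fin 6, ¬ ∃ d : ℝ, HasDensity (basin j) d := by
  rintro j ⟨d, hd⟩
  obtain ⟨T1, T2, h1, h2, h3, h4, h5⟩ := windows j
  have h6 := gap (ib_inv j) (mean_of_density j d hd) T1 T2 h1 h2 h3 h4
  linarith

end Pool.Agent.Results.MP_662637_nt.NoDensity
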